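import Pool.Agent.MWF.Stmts

/-!
# MWF row RRB (helper67)

The identity `x t x ≈ x t x^2` preserves the set of the words `x t x^k`, `k ≥ 1`.  With `X = f 0`,
`Y = f 1` the two words are `u q` and `u X q` with `u = p X Y X`; if `X` is not empty it is a power
of `0` and `u` has at least two letters `0`, so `u` starts with `0 1 0` and inserting a power of `0`
behind `u` changes nothing.
-/

namespace Pool.Agent.MWF.H67

open Pool.Agent.Helper14_MV Pool.Agent.Helper2_MV Pool.Agent.MWF

/-- the set of the words `0 1 0^k` -/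
def A (w : List ℕ) : Prop := ∃ k, 1 ≤ k ∧ w = [0, 1] ++ List.replicate k 0

theorem split {u q : List ℕ} {k : ℕ} (h : u ++ q = [0, 1] ++ List.replicate k 0)
    (hu : 2 ≤ u.count 0) :
    ∃ i l, 1 ≤ i ∧ u = [0, 1] ++ List.replicate i 0 ∧ q = List.replicate l 0 := by
  rcases u with _ | ⟨a, u⟩
  · simp at hu
  rcases u with _ | ⟨b, u⟩
  · have h1 : List.count 0 [a] ≤ [a].length := List.count_le_length
    have h2 : [a].length = 1 := rfl
    omega
  have h3 : a :: b :: (u ++ q) = 0 :: 1 :: List.replicate k 0 := h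
  have ha : a = 0 := (List.cons.inj h3).1
  have hb : b = 1 := (List.cons.inj (List.cons.inj h3).2).1
  have hr : u ++ q = List.replicate k 0 := (List.cons.inj (List.cons.inj h3).2).2
  obtain ⟨_, h5, h6⟩ := List.append_eq_replicate_iff.1 hr
  subst ha
  subst hb
  refine ⟨u.length, q.length, ?_, ?_, h6⟩
  · have h7 : List.count 0 (0 :: 1 :: u) = u.count 0 + 1 := by
      rw [List.count_cons_self, List.count_cons_of_ne (by decide)]
    have h8 : u.count 0 ≤ u.length := List.count_le_length
    omega
  · show 0 :: 1 :: u = 0 :: 1 :: List.replicate u.length 0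
    rw [← h5]

theorem step {u q : List ℕ} {j : ℕ} (hu : 2 ≤ u.count 0) :
    A (u ++ q) ↔ A (u ++ List.replicate j 0 ++ q) := by
  constructor
  · rintro ⟨k, hk, h⟩
    obtain ⟨i, l, hi, h1, h2⟩ := split h hu
    refine ⟨i + j + l, by omega, ?_⟩
    rw [h1, h2, List.append_assoc, List.append_assoc, List.replicate_add, List.replicate_add,
      List.append_assoc]
  · rintro ⟨k, hk, h⟩
    rw [List.append_assoc] at h
    obtain ⟨i, l, hi, h1, h2⟩ := split h hu
    obtain ⟨_, h3, h4⟩ := List.append_eq_replicate_iff.1 h2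
    refine ⟨i + q.length, by omega, ?_⟩
    rw [h1, List.append_assoc, List.replicate_add, ← h4]

theorem zeros {w X : List ℕ} (hw : A w) (h : 2 * X.count 1 ≤ w.count 1) (hs : X ⊆ w) :
    X = List.replicate X.length 0 := by
  obtain ⟨k, hk, rfl⟩ := hw
  have h1 : List.count 1 ([0, 1] ++ List.replicate k 0) = 1 := by
    rw [List.count_append, List.count_replicate]
    rfl
  have h2 : X.count 1 = 0 := by omega
  apply List.eq_replicate_iff.2
  refine ⟨rfl, ?_⟩
  intro b hb
  have h3 := hs hb
  have h4 : b ≠ 1 := by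
    rintro rfl
    exact absurd h2 (Nat.pos_iff_ne_zero.1 (List.count_pos_iff.2 hb))
  rcases List.mem_append.1 h3 with h5 | h5
  · simp only [List.mem_cons, List.not_mem_nil, or_false] at h5
    rcases h5 with h5 | h5
    · exact h5
    · exact absurd h5 h4
  · exact List.eq_of_mem_replicate h5

theorem rrb : RrbStmt := by
  apply RR_gaml
  intro f p q
  show A (p ++ [0, 1, 0].flatMap f ++ q) ↔ A (p ++ [0, 1, 0, 0].flatMap f ++ q)
  obtain ⟨X, hX⟩ : ∃ X, X = f 0 := ⟨_, rfl⟩
  obtain ⟨Y, hY⟩ : ∃ Y, Y = f 1 := ⟨_, rfl⟩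
  have e1 : p ++ [0, 1, 0].flatMap f ++ q = (p ++ X ++ Y ++ X) ++ q := by
    simp [hX, hY]
  have e2 : p ++ [0, 1, 0, 0].flatMap f ++ q = (p ++ X ++ Y ++ X) ++ X ++ q := by
    simp [hX, hY]
  rw [e1, e2]
  have key : X = List.replicate X.length 0 →
      (A ((p ++ X ++ Y ++ X) ++ q) ↔ A ((p ++ X ++ Y ++ X) ++ X ++ q)) := by
    intro h
    rcases Nat.eq_zero_or_pos X.length with h0 | h0
    · have h1 : X = [] := List.length_eq_zero_iff.1 h0
      subst h1
      simp
    · have h2 : X.count 0 = X.length := by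
        conv_lhs => rw [h]
        rw [List.count_replicate_self]
      have h3 : 2 ≤ (p ++ X ++ Y ++ X).count 0 := by
        rw [List.count_append, List.count_append, List.count_append]
        omega
      have h4 := step (q := q) (j := X.length) h3
      rw [← h] at h4
      exact h4
  constructor
  · intro h
    refine (key (zeros h ?_ ?_)).1 h
    · simp only [List.count_append]
      omega
    · intro b hb
      simp [hb]
  · intro h
    refine (key (zeros h ?_ ?_)).2 h
    · simp only [List.count_append]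
      omega
    · intro b hb
      simp [hb]

end Pool.Agent.MWF.H67
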